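import Pool.Agent.R303.LW.G
import Pool.Agent.R303.SW.Lio

/-! # The Liouville summatory function against the theta kernel -/

open Complex MeasureTheory Filter Topology Set Metric

set_option linter.unusedSectionVars false
set_option linter.unusedVariables false
set_option autoImplicit false
set_option maxHeartbeats 4000000

namespace Pool.Agent.R303.LW

open H313.TK
open Pool.Agent.W190 (SF)
open Pool.Agent.R303.SW (laR laR_eq laR_abs SF_meas)

noncomputable section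

/-- Liouville summatory function -/
def LL (y : ℝ) : ℝ := SF laR y

/-- exponential scale -/
def ll (u : ℝ) : ℝ := LL (Real.exp u)

lemma abs_LL_le {y : ℝ} (h : 0 ≤ y) : |LL y| ≤ y := by
  unfold LL SF
  refine (Finset.abs_sum_le_sum_abs _ _).trans ?_
  refine (Finset.sum_le_sum fun n _ => laR_abs n).trans ?_
  rw [Finset.sum_const, Nat.card_Icc]
  simp
  exact Nat.floor_le h

lemma ll_meas : Measurable ll := (SF_meas laR).comp Real.measurable_exp

lemma abs_ll_le (u : ℝ) : |ll u| ≤ Real.exp u := abs_LL_le (Real.exp_pos u).le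

lemma LL_eq (y : ℝ) : LL y = ∑ m ∈ Finset.Icc 1 ⌊y⌋₊, MM (y / (m : ℝ) ^ 2) := by
  have h1 := Pool.Agent.H534R2.BH.lam_sum ⌊y⌋₊ (fun _ => 1)
  simp only [mul_one] at h1
  have h2 : ((SF laR y : ℝ) : ℂ) = ((∑ m ∈ Finset.Icc 1 ⌊y⌋₊, ∑ l ∈ Finset.Icc 1 (⌊y⌋₊ / m ^ 2),
      ((ArithmeticFunction.moebius l : ℤ) : ℝ) : ℝ) : ℂ) := by
    have e : ((SF laR y : ℝ) : ℂ) = ∑ n ∈ Finset.Icc 1 ⌊y⌋₊, (-1 : ℂ) ^ ArithmeticFunction.cardFactors n := by
      unfold SF
      push_cast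
      refine Finset.sum_congr rfl fun n hn => ?_
      rw [laR_eq (by rw [Finset.mem_Icc] at hn; omega)]
      push_cast
      rfl
    rw [e, h1]
    push_cast
    rfl
  have h3 := Complex.ofReal_injective h2
  unfold LL
  rw [h3]
  refine Finset.sum_congr rfl fun m hm => ?_
  have e2 : ⌊y⌋₊ / m ^ 2 = ⌊y / (m : ℝ) ^ 2⌋₊ := by
    have := Nat.floor_div_natCast y (m ^ 2)
    push_cast at this
    exact this.symm
  rw [e2]
  rfl

lemma sum_Icc_range (f : ℕ → ℝ) (N : ℕ) : ∑ m ∈ Finset.Icc 1 N, f m = ∑ k ∈ Finset.range N, f (k + 1) := by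
  induction N with
  | zero => simp
  | succ N ih => rw [Finset.sum_Icc_succ_top (by omega), ih, Finset.sum_range_succ]

lemma LL_hasSum (y : ℝ) (hy : 0 ≤ y) : HasSum (fun k : ℕ => MM (y / ((k : ℝ) + 1) ^ 2)) (LL y) := by
  rw [LL_eq, sum_Icc_range]
  have e : ∑ k ∈ Finset.range ⌊y⌋₊, MM (y / (((k + 1 : ℕ) : ℝ)) ^ 2) =
      ∑ k ∈ Finset.range ⌊y⌋₊, MM (y / ((k : ℝ) + 1) ^ 2) := by
    refine Finset.sum_congr rfl fun k _ => ?_
    push_cast
    rfl
  rw [e]
  refine hasSum_sum_of_ne_finset_zero fun k hk => ?_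
  rw [Finset.mem_range, not_lt] at hk
  apply MM_lt_one
  rw [div_lt_one (by positivity)]
  have h1 := Nat.lt_floor_add_one y
  have h2 : (⌊y⌋₊ : ℝ) ≤ k := by exact_mod_cast hk
  nlinarith

/-- the shift -/
def Lk (k : ℕ) : ℝ := 2 * Real.log ((k : ℝ) + 1)

lemma Lk_nonneg (k : ℕ) : 0 ≤ Lk k := by
  unfold Lk
  have := Real.log_nonneg (show (1:ℝ) ≤ (k : ℝ) + 1 by
    have : (0:ℝ) ≤ k := Nat.cast_nonneg k
    linarith)
  linarith

lemma exp_Lk (k : ℕ) : Real.exp (Lk k) = ((k : ℝ) + 1) ^ 2 := by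
  unfold Lk
  rw [mul_comm, Real.exp_mul, Real.exp_log (by positivity)]
  norm_num

lemma exp_aLk (a : ℝ) (k : ℕ) : Real.exp (a * -(Lk k)) = 1 / ((k : ℝ) + 1) ^ (2 * a) := by
  unfold Lk
  rw [Real.rpow_def_of_pos (by positivity), one_div, ← Real.exp_neg]
  congr 1
  ring

lemma ll_hasSum (u : ℝ) : HasSum (fun k : ℕ => mm (u - Lk k)) (ll u) := by
  have h := LL_hasSum (Real.exp u) (Real.exp_pos u).le
  have e : (fun k : ℕ => mm (u - Lk k)) = fun k : ℕ => MM (Real.exp u / ((k : ℝ) + 1) ^ 2) := by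
    funext k
    unfold mm
    rw [Real.exp_sub, exp_Lk]
  rw [e]
  exact h

/-- interchange -/
lemma swap {K : ℝ → ℂ} (hK : DK K) (t : ℝ) :
    HasSum (fun k : ℕ => ∫ v : ℝ, (mm (t - Lk k - v) : ℂ) * K v) (∫ v : ℝ, (ll (t - v) : ℂ) * K v) := by
  obtain ⟨B, hB, hb⟩ := hK.bd
  have hc := hK.cont
  have hm := mm_meas
  set F : ℕ → ℝ → ℂ := fun k v => (mm (t - Lk k - v) : ℂ) * K v with hF
  have hFb : ∀ k v, ‖F k v‖ ≤ (1 / ((k : ℝ) + 1) ^ 2) * (B * (4 * Real.exp t) * Real.exp (-(1 * |v|))) := by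
    intro k v
    simp only [hF]
    rw [norm_mul, Complex.norm_real, Real.norm_eq_abs]
    have h1 : |mm (t - Lk k - v)| ≤ (1 / ((k : ℝ) + 1) ^ 2) * Real.exp (t - v) := by
      refine (abs_mm_le _).trans (le_of_eq ?_)
      rw [show t - Lk k - v = (t - v) - Lk k by ring, Real.exp_sub (t - v), exp_Lk]
      ring
    calc |mm (t - Lk k - v)| * ‖K v‖ ≤ ((1 / ((k : ℝ) + 1) ^ 2) * Real.exp (t - v)) * (B * W v) :=
          mul_le_mul h1 (hb v) (norm_nonneg _) (by positivity)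
      _ = (1 / ((k : ℝ) + 1) ^ 2) * (B * (Real.exp (t - v) * W v)) := by ring
      _ ≤ (1 / ((k : ℝ) + 1) ^ 2) * (B * (4 * Real.exp t * Real.exp (-(1 * |v|)))) := by
          have := kpW t v
          gcongr
      _ = _ := by ring
  have hFm : ∀ k, AEStronglyMeasurable (F k) volume := fun k => by
    simp only [hF]
    exact (by fun_prop : Measurable fun v => (mm (t - Lk k - v) : ℂ) * K v).aestronglyMeasurable
  have hdom : ∀ k : ℕ, Integrable (fun v : ℝ => (1 / ((k : ℝ) + 1) ^ 2) *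
      (B * (4 * Real.exp t) * Real.exp (-(1 * |v|)))) := fun k =>
    ((int_exp_abs 1 one_pos).const_mul _).const_mul _
  have hFi : ∀ k, Integrable (F k) := fun k => (hdom k).mono' (hFm k) (ae_of_all _ (hFb k))
  have hFs : Summable (fun k => ∫ z, ‖F k z‖) := by
    refine Summable.of_nonneg_of_le (fun k => integral_nonneg fun z => norm_nonneg _) (fun k => ?_)
      (sum_sq.mul_right (∫ v : ℝ, B * (4 * Real.exp t) * Real.exp (-(1 * |v|))))
    have h1 := integral_mono (hFi k).norm (hdom k) (hFb k)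
    rwa [integral_const_mul] at h1
  have key := hasSum_integral_of_summable_integral_norm hFi hFs
  have e1 : ∫ v, ∑' k, F k v = ∫ v : ℝ, (ll (t - v) : ℂ) * K v := by
    refine integral_congr_ae (ae_of_all _ fun v => ?_)
    simp only [hF]
    rw [tsum_mul_right]
    congr 1
    have h1 := ll_hasSum (t - v)
    have h2 := (Complex.hasSum_ofReal.2 h1).tsum_eq
    rw [← h2]
    refine tsum_congr fun k => ?_
    congr 2
    ring
  rw [e1] at key
  exact key

/-- the average of the building block -/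
def Gg (g : ℝ → ℂ) (t : ℝ) : ℂ := ∫ z in Iic t, g z

lemma ident {g : ℝ → ℂ} (hg : QQ g) (hD : DK (Sg g)) (t : ℝ) :
    HasSum (fun k : ℕ => Gg g (t - Lk k)) (∫ v : ℝ, (ll (t - v) : ℂ) * Sg g v) := by
  have h := swap hD t
  have e : (fun k : ℕ => Gg g (t - Lk k)) = fun k : ℕ => ∫ v : ℝ, (mm (t - Lk k - v) : ℂ) * Sg g v := by
    funext k
    rw [moeb hg (t - Lk k)]
    rfl
  rw [e]
  exact h

lemma neg_bound {g : ℝ → ℂ} (hg : QQ g) : ∃ C : ℝ, 0 ≤ C ∧ ∀ t ≤ (0:ℝ), ‖Gg g t‖ ≤ C * Real.exp (2 * t) := by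
  obtain ⟨C, hC, hb⟩ := hg.bd 0
  refine ⟨C / 2, by positivity, fun t ht => ?_⟩
  unfold Gg
  have hi : IntegrableOn (fun z : ℝ => C * Real.exp (2 * z)) (Iic t) :=
    (integrableOn_exp_mul_Iic (by norm_num : (0:ℝ) < 2) t).const_mul _
  have h1 := norm_integral_le_of_norm_le (μ := volume.restrict (Iic t)) (f := g) hi (by
    filter_upwards [ae_restrict_mem measurableSet_Iic] with z hz
    exact hb z (le_trans hz ht))
  refine h1.trans (le_of_eq ?_)
  rw [integral_const_mul, integral_exp_mul_Iic (by norm_num : (0:ℝ) < 2)]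
  ring

/-- the average of `qc` -/
lemma q_bound (a : ℝ) (h0 : 0 ≤ a) (h2 : a ≤ 2) : ∃ C : ℝ, 0 ≤ C ∧ ∀ t : ℝ, ‖Gg qc t‖ ≤ C * Real.exp (a * t) := by
  obtain ⟨C, hC, hb⟩ := neg_bound qc_QQ
  set D : ℝ := 48 * ∫ x : ℝ, Real.exp (-(2 * |x|)) with hD
  have hi : Integrable (fun x : ℝ => 48 * Real.exp (-(2 * |x|))) := (int_exp_abs 2 (by norm_num)).const_mul 48
  have hD0 : 0 ≤ D := by
    rw [hD]
    exact mul_nonneg (by norm_num) (integral_nonneg fun x => (Real.exp_pos _).le)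
  refine ⟨C + D, by positivity, fun t => ?_⟩
  rcases le_total t 0 with ht | ht
  · refine (hb t ht).trans ?_
    have h3 : Real.exp (2 * t) ≤ Real.exp (a * t) := Real.exp_le_exp.2 (by nlinarith)
    calc C * Real.exp (2 * t) ≤ C * Real.exp (a * t) := by gcongr
      _ ≤ (C + D) * Real.exp (a * t) := by
          have := Real.exp_pos (a * t)
          nlinarith
  · have h4 : ‖Gg qc t‖ ≤ D := by
      unfold Gg
      refine (norm_integral_le_of_norm_le (g := fun x : ℝ => 48 * Real.exp (-(2 * |x|))) hi.integrableOn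
        (ae_of_all _ fun z => qq_bd z)).trans ?_
      rw [hD, ← integral_const_mul]
      exact setIntegral_le_integral hi (ae_of_all _ fun x => by positivity)
    have h5 : 1 ≤ Real.exp (a * t) := Real.one_le_exp (by positivity)
    nlinarith

lemma zsum (a : ℝ) (ha : 1 / 2 < a) : Summable (fun k : ℕ => 1 / ((k : ℝ) + 1) ^ (2 * a)) := by
  have := (Real.summable_one_div_nat_rpow.2 (by linarith : 1 < 2 * a))
  have h2 := (summable_nat_add_iff 1).2 this
  simpa using h2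

/-- sums of exponentially bounded averages -/
lemma sum_bound {G : ℝ → ℂ} {a C : ℝ} (ha : 1 / 2 < a) (hC : 0 ≤ C) (hG : ∀ t, ‖G t‖ ≤ C * Real.exp (a * t))
    {S : ℂ} {t : ℝ} (hS : HasSum (fun k : ℕ => G (t - Lk k)) S) :
    ‖S‖ ≤ C * (∑' k : ℕ, 1 / ((k : ℝ) + 1) ^ (2 * a)) * Real.exp (a * t) := by
  have hz := zsum a ha
  have hb : ∀ k : ℕ, ‖G (t - Lk k)‖ ≤ (C * Real.exp (a * t)) * (1 / ((k : ℝ) + 1) ^ (2 * a)) := by
    intro k
    refine (hG _).trans (le_of_eq ?_)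
    rw [← exp_aLk, mul_assoc, ← Real.exp_add]
    congr 2
    ring
  have h1 := tsum_of_norm_bounded (hz.mul_left (C * Real.exp (a * t))).hasSum hb
  rw [hS.tsum_eq, tsum_mul_left] at h1
  refine h1.trans (le_of_eq ?_)
  ring

/-- the average of the twisted building block -/
lemma I_bound (ρ : ℂ) (h0 : 0 < ρ.re) (h1 : ρ.re < 1) :
    ∃ C : ℝ, 0 ≤ C ∧ ∀ t : ℝ, ‖Gg (Ist ρ qc) t‖ ≤ C * Real.exp (ρ.re * t) := by
  have hQ := Ist_QQ qc_QQ ρ (by linarith)
  obtain ⟨C, hC, hb⟩ := neg_bound hQ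
  obtain ⟨C1, hC1, hasy⟩ := G1_asy ρ h0 h1
  refine ⟨C + ‖qh ρ / ρ‖ + C1 + 24 / ρ.re, by positivity, fun t => ?_⟩
  have hE := Real.exp_pos (ρ.re * t)
  rcases le_total t 0 with ht | ht
  · refine (hb t ht).trans ?_
    have h3 : Real.exp (2 * t) ≤ Real.exp (ρ.re * t) := Real.exp_le_exp.2 (by nlinarith)
    have h4 : 0 ≤ ‖qh ρ / ρ‖ + C1 + 24 / ρ.re := by positivity
    calc C * Real.exp (2 * t) ≤ C * Real.exp (ρ.re * t) := by gcongr
      _ ≤ (C + ‖qh ρ / ρ‖ + C1 + 24 / ρ.re) * Real.exp (ρ.re * t) := by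
          nlinarith
  · have k2 := hasy t ht
    have k4 : ‖qh ρ / ρ * cexp (ρ * t)‖ = ‖qh ρ / ρ‖ * Real.exp (ρ.re * t) := by rw [norm_mul, norm_tw']
    have k5 : ‖Gg (Ist ρ qc) t‖ ≤ ‖qh ρ / ρ * cexp (ρ * t)‖ +
        ‖(∫ z in Iic t, Ist ρ qc z) - qh ρ / ρ * cexp (ρ * t)‖ := by
      unfold Gg
      refine le_trans (le_of_eq ?_) (norm_add_le _ _)
      congr 1
      ring
    have k6 : ρ.re * t ≤ Real.exp (ρ.re * t) := by
      have := Real.add_one_le_exp (ρ.re * t)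
      linarith
    have k7 : 24 * t ≤ 24 / ρ.re * Real.exp (ρ.re * t) := by
      rw [div_mul_eq_mul_div, le_div_iff₀ h0]
      linarith
    have k8 : 1 ≤ Real.exp (ρ.re * t) := Real.one_le_exp (by positivity)
    have k9 : C1 ≤ C1 * Real.exp (ρ.re * t) := le_mul_of_one_le_right hC1 k8
    have k10 : 0 ≤ C * Real.exp (ρ.re * t) := by positivity
    calc ‖Gg (Ist ρ qc) t‖ ≤ ‖qh ρ / ρ‖ * Real.exp (ρ.re * t) + (C1 + 24 * t) := by
          rw [k4] at k5
          linarith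
      _ ≤ _ := by
          have : (C + ‖qh ρ / ρ‖ + C1 + 24 / ρ.re) * Real.exp (ρ.re * t) = C * Real.exp (ρ.re * t) +
            ‖qh ρ / ρ‖ * Real.exp (ρ.re * t) + C1 * Real.exp (ρ.re * t) + 24 / ρ.re * Real.exp (ρ.re * t) := by ring
          rw [this]
          linarith

lemma cexp_Lk (ρ : ℂ) (k : ℕ) : cexp (-ρ * (Lk k : ℂ)) = 1 / ((k : ℂ) + 1) ^ (2 * ρ) := by
  have hne : ((k : ℂ) + 1) ≠ 0 := by exact_mod_cast Nat.succ_ne_zero k
  rw [Complex.cpow_def_of_ne_zero hne, one_div, ← Complex.exp_neg]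
  congr 1
  unfold Lk
  push_cast
  rw [Complex.ofReal_log (by positivity)]
  push_cast
  ring

/-- the limit of the twisted averages of the Liouville function -/
lemma core_lim (ρ : ℂ) (h0 : 1 / 2 < ρ.re) (h1 : ρ.re < 1) {S : ℝ → ℂ}
    (hS : ∀ t, HasSum (fun k : ℕ => Gg (Ist ρ qc) (t - Lk k)) (S t)) :
    Tendsto (fun t : ℝ => cexp (-ρ * t) * S t) atTop (𝓝 (qh ρ / ρ * riemannZeta (2 * ρ))) := by
  obtain ⟨C, hC, hb⟩ := I_bound ρ (by linarith) h1
  obtain ⟨C1, hC1, hasy⟩ := G1_asy ρ (by linarith) h1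
  have hz := zsum ρ.re h0
  have base : Tendsto (fun u : ℝ => cexp (-ρ * u) * Gg (Ist ρ qc) u) atTop (𝓝 (qh ρ / ρ)) := by
    rw [tendsto_iff_norm_sub_tendsto_zero]
    have h2 : Tendsto (fun u : ℝ => (C1 + 24 * u) * Real.exp (-(ρ.re * u))) atTop (𝓝 0) := by
      have hp : 0 < ρ.re := by linarith
      have hl : Tendsto (fun u : ℝ => ρ.re * u) atTop atTop := Tendsto.const_mul_atTop hp tendsto_id
      have a1 := (Real.tendsto_pow_mul_exp_neg_atTop_nhds_zero 0).comp hl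
      have a2 := (Real.tendsto_pow_mul_exp_neg_atTop_nhds_zero 1).comp hl
      have a3 := (a1.const_mul C1).add (a2.const_mul (24 / ρ.re))
      simp only [mul_zero, add_zero] at a3
      refine a3.congr fun u => ?_
      simp only [Function.comp, pow_zero, one_mul, pow_one]
      field_simp
    refine squeeze_zero' (Eventually.of_forall fun u => norm_nonneg _) ?_ h2
    filter_upwards [eventually_ge_atTop (0:ℝ)] with u hu
    have e1 : cexp (-ρ * u) * Gg (Ist ρ qc) u - qh ρ / ρ =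
        cexp (-ρ * u) * ((∫ z in Iic u, Ist ρ qc z) - qh ρ / ρ * cexp (ρ * u)) := by
      have e2 : cexp (-ρ * u) * cexp (ρ * u) = 1 := by
        rw [← Complex.exp_add]
        simp
      unfold Gg
      calc _ = cexp (-ρ * u) * (∫ z in Iic u, Ist ρ qc z) - (cexp (-ρ * u) * cexp (ρ * u)) * (qh ρ / ρ) := by
            rw [e2, one_mul]
        _ = _ := by ring
    rw [e1, norm_mul, norm_tw, neg_mul, mul_comm]
    exact mul_le_mul_of_nonneg_right (hasy u hu) (Real.exp_pos _).le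
  have hlim : Tendsto (fun t : ℝ => ∑' k : ℕ, cexp (-ρ * t) * Gg (Ist ρ qc) (t - Lk k)) atTop
      (𝓝 (∑' k : ℕ, cexp (-ρ * (Lk k : ℂ)) * (qh ρ / ρ))) := by
    refine tendsto_tsum_of_dominated_convergence (bound := fun k => C * (1 / ((k : ℝ) + 1) ^ (2 * ρ.re)))
      (hz.mul_left C) (fun k => ?_) (Eventually.of_forall fun t k => ?_)
    · have h3 : Tendsto (fun t : ℝ => t - Lk k) atTop atTop := tendsto_atTop_add_const_right _ _ tendsto_id
      have h4 := (base.comp h3).const_mul (cexp (-ρ * (Lk k : ℂ)))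
      refine h4.congr fun t => ?_
      simp only [Function.comp]
      rw [← mul_assoc, ← Complex.exp_add]
      congr 2
      push_cast
      ring
    · rw [norm_mul, norm_tw]
      calc Real.exp (-ρ.re * t) * ‖Gg (Ist ρ qc) (t - Lk k)‖ ≤
            Real.exp (-ρ.re * t) * (C * Real.exp (ρ.re * (t - Lk k))) := by
            have := hb (t - Lk k)
            gcongr
        _ = C * Real.exp (ρ.re * -(Lk k)) := by
            rw [mul_left_comm, ← Real.exp_add]
            congr 2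
            ring
        _ = _ := by rw [exp_aLk]
  have e3 : ∑' k : ℕ, cexp (-ρ * (Lk k : ℂ)) * (qh ρ / ρ) = qh ρ / ρ * riemannZeta (2 * ρ) := by
    have h2 : 1 < (2 * ρ).re := by
      rw [Complex.mul_re]
      simp
      linarith
    rw [tsum_mul_right, zeta_eq_tsum_one_div_nat_add_one_cpow h2, mul_comm]
    congr 1
    exact tsum_congr fun k => cexp_Lk ρ k
  rw [e3] at hlim
  refine hlim.congr fun t => ?_
  rw [tsum_mul_left, (hS t).tsum_eq]

/-- **Core inequality for the Liouville function.** -/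
theorem coreL (ρ : ℂ) (hz : riemannZeta ρ = 0) (h0 : 1 / 2 < ρ.re) (h1 : ρ.re < 1) :
    ∃ c : ℝ, 0 < c ∧ ∀ᶠ t : ℝ in atTop, ∀ s : ℝ, s = 1 ∨ s = -1 →
      c * ((fun _ : ℝ => (1:ℝ)) t * Real.exp (ρ.re * t)) ≤ ∫ v : ℝ, max (s * ll (t - v)) 0 * kp v := by
  have hp : 0 < ρ.re := by linarith
  have hρ : ρ ≠ 0 := by rintro rfl; simp at hp
  have hQ := Ist_QQ qc_QQ ρ (by linarith)
  have hS : Sg (Ist ρ qc) = Ist ρ kc := by
    funext v
    rw [kc_eq]
    exact (Sg_Ist qc_QQ ρ (by linarith) v).symm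
  have hre : |ρ.re| ≤ 2 := by rw [abs_of_pos hp]; linarith
  have hD : DK (Sg (Ist ρ qc)) := by
    rw [hS]
    exact Ist_DK kc_DK ρ hre (Kh_zero ρ hz hp h1)
  have hDq : DK (Sg qc) := by
    rw [← kc_eq]
    exact kc_DK
  obtain ⟨B, hB, hb⟩ := hD.bd
  -- the bound for the average of `ll`
  set a := (1 / 2 + ρ.re) / 2 with ha
  have ha1 : 1 / 2 < a := by rw [ha]; linarith
  have ha2 : a < ρ.re := by rw [ha]; linarith
  obtain ⟨Cq, hCq, hq⟩ := q_bound a (by linarith) (by linarith)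
  set E := Cq * (∑' k : ℕ, 1 / ((k : ℝ) + 1) ^ (2 * a)) with hE
  have hE0 : 0 ≤ E := mul_nonneg hCq (tsum_nonneg fun k => by positivity)
  have avg : ∀ t : ℝ, |∫ v : ℝ, ll (t - v) * kp v| ≤ E * Real.exp (a * t) := by
    intro t
    have k1 := sum_bound ha1 hCq hq (ident qc_QQ hDq t)
    have k2 : ∫ v : ℝ, (ll (t - v) : ℂ) * Sg qc v = ((∫ v : ℝ, ll (t - v) * kp v : ℝ) : ℂ) := by
      rw [← kc_eq, ← integral_complex_ofReal]
      refine integral_congr_ae (ae_of_all _ fun v => ?_)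
      simp [kc]
    rw [k2, Complex.norm_real, Real.norm_eq_abs] at k1
    exact k1
  -- the lower bound for the twisted average
  have lim := core_lim ρ h0 h1 (S := fun t => ∫ v : ℝ, (ll (t - v) : ℂ) * Sg (Ist ρ qc) v)
    (fun t => ident hQ hD t)
  have hζ : riemannZeta (2 * ρ) ≠ 0 := by
    refine riemannZeta_ne_zero_of_one_le_re ?_
    rw [Complex.mul_re]
    simp
    linarith
  set A : ℝ := ‖qh ρ / ρ * riemannZeta (2 * ρ)‖ with hA
  have hA0 : 0 < A := norm_pos_iff.2 (mul_ne_zero (div_ne_zero (qh_ne ρ hp h1) hρ) hζ)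
  have low : ∀ᶠ t : ℝ in atTop, A / 2 * Real.exp (ρ.re * t) ≤ ‖∫ v : ℝ, (ll (t - v) : ℂ) * Sg (Ist ρ qc) v‖ := by
    have h5 := lim.norm.eventually (lt_mem_nhds (show A / 2 < A by linarith))
    filter_upwards [h5] with t ht
    rw [norm_mul, norm_tw] at ht
    have h6 : Real.exp (ρ.re * t) * Real.exp (-ρ.re * t) = 1 := by
      rw [← Real.exp_add]
      simp
    calc A / 2 * Real.exp (ρ.re * t) ≤
          (Real.exp (-ρ.re * t) * ‖∫ v : ℝ, (ll (t - v) : ℂ) * Sg (Ist ρ qc) v‖) * Real.exp (ρ.re * t) :=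
          mul_le_mul_of_nonneg_right ht.le (Real.exp_pos _).le
      _ = (Real.exp (ρ.re * t) * Real.exp (-ρ.re * t)) * ‖∫ v : ℝ, (ll (t - v) : ℂ) * Sg (Ist ρ qc) v‖ := by ring
      _ = _ := by rw [h6, one_mul]
  have hB1 : 0 < B + 1 := by linarith
  set c := A / (16 * (B + 1)) with hc
  have hc0 : 0 < c := by positivity
  have small : ∀ᶠ t : ℝ in atTop, E * Real.exp (a * t) ≤ 2 * c * Real.exp (ρ.re * t) := by
    have h7 : Tendsto (fun t : ℝ => Real.exp ((ρ.re - a) * t)) atTop atTop :=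
      Real.tendsto_exp_atTop.comp (Tendsto.const_mul_atTop (by linarith) tendsto_id)
    filter_upwards [h7.eventually_ge_atTop (E / (2 * c))] with t ht
    rw [div_le_iff₀ (by positivity)] at ht
    have e : Real.exp (ρ.re * t) = Real.exp ((ρ.re - a) * t) * Real.exp (a * t) := by
      rw [← Real.exp_add]
      congr 1
      ring
    calc E * Real.exp (a * t) ≤ (Real.exp ((ρ.re - a) * t) * (2 * c)) * Real.exp (a * t) := by gcongr
      _ = _ := by rw [e]; ring
  refine ⟨c, hc0, ?_⟩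
  filter_upwards [low, small] with t k1 k2 s hs
  have i1 := avg_int ll ll_meas abs_ll_le t
  have hm := ll_meas
  have i2 : Integrable (fun v => |ll (t - v)| * kp v) :=
    avg_int (fun u => |ll u|) (by fun_prop) (fun u => by rw [abs_abs]; exact abs_ll_le u) t
  have i3 : Integrable (fun v => max (s * ll (t - v)) 0 * kp v) :=
    avg_int (fun u => max (s * ll u) 0) (by fun_prop) (fun u => (part_le s hs _).trans (abs_ll_le u)) t
  have e1 : ∫ v, |ll (t - v)| * kp v = 2 * (∫ v, max (s * ll (t - v)) 0 * kp v) - s * ∫ v, ll (t - v) * kp v := by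
    rw [← integral_const_mul, ← integral_const_mul, ← integral_sub (i3.const_mul 2) (i1.const_mul s)]
    refine integral_congr_ae (ae_of_all _ fun v => ?_)
    simp only
    rw [part_id s hs (ll (t - v))]
    ring
  have e3 : |s * ∫ v, ll (t - v) * kp v| ≤ E * Real.exp (a * t) := by
    rw [abs_mul]
    have : |s| = 1 := by rcases hs with h | h <;> rw [h] <;> simp
    rw [this, one_mul]
    exact avg t
  have e4 : ‖∫ v : ℝ, (ll (t - v) : ℂ) * Sg (Ist ρ qc) v‖ ≤ (2 * (B + 1)) * ∫ v, |ll (t - v)| * kp v := by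
    rw [← integral_const_mul]
    refine norm_integral_le_of_norm_le (i2.const_mul _) (ae_of_all _ fun v => ?_)
    rw [norm_mul, Complex.norm_real, Real.norm_eq_abs]
    have h5 : ‖Sg (Ist ρ qc) v‖ ≤ 2 * (B + 1) * kp v := by
      refine (hb v).trans ?_
      have h6 := (kp_bounds v).1
      have h7 := W_pos v
      nlinarith
    calc |ll (t - v)| * ‖Sg (Ist ρ qc) v‖ ≤ |ll (t - v)| * (2 * (B + 1) * kp v) :=
          mul_le_mul_of_nonneg_left h5 (abs_nonneg _)
      _ = _ := by ring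
  have e5 := (abs_le.1 e3).1
  rw [e1] at e4
  have e6 : A / 2 * Real.exp (ρ.re * t) ≤
      (2 * (B + 1)) * (2 * (∫ v, max (s * ll (t - v)) 0 * kp v) - s * ∫ v, ll (t - v) * kp v) := k1.trans e4
  have e7 : 4 * c * Real.exp (ρ.re * t) ≤
      2 * (∫ v, max (s * ll (t - v)) 0 * kp v) - s * ∫ v, ll (t - v) * kp v := by
    have h8 : A / 2 * Real.exp (ρ.re * t) = (2 * (B + 1)) * (4 * c * Real.exp (ρ.re * t)) := by
      rw [hc]
      field_simp
      ring
    rw [h8] at e6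
    exact le_of_mul_le_mul_left e6 (by positivity)
  simp only [one_mul]
  linarith

/-- **Both signs in every window.** -/
theorem signsL (ρ : ℂ) (hz : riemannZeta ρ = 0) (h0 : 1 / 2 < ρ.re) (h1 : ρ.re < 1) :
    ∃ c : ℝ, 0 < c ∧ ∀ᶠ x : ℝ in atTop, ∀ s : ℝ, s = 1 ∨ s = -1 →
      ∃ y ∈ Icc x (x * Real.log x), c * y ^ ρ.re ≤ s * LL y := by
  have hcore := coreL ρ hz h0 h1
  have hw := win_sup ll_meas abs_ll_le ρ.re h0.le h1.le (fun _ => 1) (Eventually.of_forall fun _ => le_rfl) hcore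
  have h := sup_log (f := ll) (g := LL) (fun _ => rfl) (β := ρ.re) (Lf := fun _ => 1) hw
  obtain ⟨c, hc, h⟩ := h
  exact ⟨c, hc, by simpa using h⟩

end

end Pool.Agent.R303.LW
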