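import Pool.Agent.H313R3.TK.J
import Pool.Agent.R303.SW.Mo

/-! # One-sided large values of Moebius sums over short intervals -/

set_option autoImplicit false
set_option maxHeartbeats 4000000

open Filter Topology Set MeasureTheory
open Pool.Agent.W190 (SF rh_free)
open Pool.Agent.R303.SW

namespace Pool.Agent.R303.LW

noncomputable section

/-- a point with the same integer part avoiding all the lattices `n + j H` -/
lemma generic (z H : ℝ) (hz : 0 ≤ z) : ∃ z' : ℝ, z ≤ z' ∧ ⌊z'⌋₊ = ⌊z⌋₊ ∧ ∀ j n : ℕ, z' - j * H ≠ n := by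
  have hcount : (Set.range (fun p : ℕ × ℕ => (p.2 : ℝ) + p.1 * H)).Countable := Set.countable_range _
  have hd := hcount.dense_compl ℝ
  have hlt : z < (⌊z⌋₊ : ℝ) + 1 := Nat.lt_floor_add_one z
  obtain ⟨z', hz', h1, h2⟩ := hd.exists_between hlt
  refine ⟨z', h1.le, ?_, fun j n h => hz' ⟨(j, n), ?_⟩⟩
  · rw [Nat.floor_eq_iff (hz.trans h1.le)]
    exact ⟨(Nat.floor_le hz).trans h1.le, h2⟩
  · show (n : ℝ) + j * H = z'
    linarith

/-- the chain argument -/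
theorem chain {σ0 : ℝ} (h12 : 1 / 2 ≤ σ0) (h1 : σ0 ≤ 1) (hfree : ∀ s : ℂ, σ0 < s.re → riemannZeta s ≠ 0)
    (hzero : ∀ e : ℝ, 0 < e → ∃ ρ : ℂ, riemannZeta ρ = 0 ∧ σ0 - e < ρ.re) (ε : ℝ) (hε : 0 < ε) (hε1 : ε < 1) :
    ∀ᶠ X : ℝ in atTop, ∀ H : ℝ, 0 < H → H ≤ X → ∀ s : ℝ, s = 1 ∨ s = -1 →
      ∃ x ∈ Icc X (X ^ (1 + ε)), (∀ n : ℕ, x + H / 2 ≠ n) ∧ H / 2 ≤ x ∧
        H * X ^ (σ0 - 1 - ε) ≤ s * DF muR H x := by
  -- the zero
  obtain ⟨ρ, hρ, hβ2, hβe⟩ : ∃ ρ : ℂ, riemannZeta ρ = 0 ∧ 1 / 2 ≤ ρ.re ∧ σ0 - ε / 16 < ρ.re := by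
    obtain ⟨ρ, hρ, h⟩ := hzero (ε / 16) (by linarith)
    rcases le_or_gt (1 / 2) ρ.re with h2 | h2
    · exact ⟨ρ, hρ, h2, h⟩
    · obtain ⟨ρ', h3, h4, -⟩ := H313.TK.exists_zero
      exact ⟨ρ', h3, h4, by linarith⟩
  have hβ1 : ρ.re < 1 := (Pool.Agent.W190.zero_FF hρ).2
  set β := ρ.re with hβ
  obtain ⟨c, hc, hsg⟩ := H313.TK.signs ρ hρ hβ2 hβ1
  obtain ⟨C, hC⟩ := H353.mertens_of_free σ0 h12 hfree (σ0 + ε / 16) (by linarith)
  have hC' : ∀ y : ℝ, 1 ≤ y → |SF muR y| ≤ C * y ^ (σ0 + ε / 16) := hC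
  have hC0 : 0 ≤ C := by
    have := (abs_nonneg _).trans (hC' 1 le_rfl)
    simpa using this
  have t1 : ∀ᶠ X : ℝ in atTop, ∀ s : ℝ, s = 1 ∨ s = -1 →
      ∃ y ∈ Icc (X ^ (1 + ε / 2)) (X ^ (1 + ε / 2) * Real.log (X ^ (1 + ε / 2))), c * y ^ β ≤ s * H313.TK.MM y :=
    (tendsto_rpow_atTop (by linarith : 0 < 1 + ε / 2)).eventually hsg
  have t2 : ∀ᶠ X : ℝ in atTop, Real.log X ≤ X ^ (ε / 4) := by
    have := (isLittleO_log_rpow_atTop (r := ε / 4) (by linarith)).bound (c := 1) one_pos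
    filter_upwards [this, eventually_ge_atTop (1:ℝ)] with X hX hX1
    rw [Real.norm_of_nonneg (Real.log_nonneg hX1), Real.norm_of_nonneg (by positivity), one_mul] at hX
    exact hX
  have t3 : ∀ᶠ X : ℝ in atTop, 3 ≤ X ^ (ε / 4) := (tendsto_rpow_atTop (by linarith)).eventually_ge_atTop _
  have t4 : ∀ᶠ X : ℝ in atTop, 8 * C / c ≤ X ^ (ε / 8) := (tendsto_rpow_atTop (by linarith)).eventually_ge_atTop _
  have t5 : ∀ᶠ X : ℝ in atTop, 4 / c < X ^ (7 * ε / 16) := (tendsto_rpow_atTop (by linarith)).eventually_gt_atTop _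
  filter_upwards [t1, t2, t3, t4, t5, eventually_ge_atTop (1:ℝ)] with X g1 g2 g3 g4 g5 hX1 H hH hHX s hs
  have hX : 0 < X := by linarith
  obtain ⟨z, hz, hzc⟩ := g1 s hs
  have hX1' : X ≤ X ^ (1 + ε / 2) := by
    conv_lhs => rw [← Real.rpow_one X]
    exact Real.rpow_le_rpow_of_exponent_le hX1 (by linarith)
  have hzX : X ≤ z := hX1'.trans hz.1
  have hz0 : 0 < z := by linarith
  have hz1 : 1 ≤ z := by linarith
  -- upper bound for `z + 1`
  have hzu : z + 1 ≤ X ^ (1 + ε) := by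
    have e1 : Real.log (X ^ (1 + ε / 2)) = (1 + ε / 2) * Real.log X := Real.log_rpow hX _
    have hlog : 0 ≤ Real.log X := Real.log_nonneg hX1
    have hP : 0 < X ^ (1 + ε / 2) := Real.rpow_pos_of_pos hX _
    have e2 : z ≤ 2 * (X ^ (1 + ε / 2) * X ^ (ε / 4)) := by
      refine hz.2.trans ?_
      rw [e1]
      have : (1 + ε / 2) * Real.log X ≤ 2 * X ^ (ε / 4) := by nlinarith
      calc X ^ (1 + ε / 2) * ((1 + ε / 2) * Real.log X) ≤ X ^ (1 + ε / 2) * (2 * X ^ (ε / 4)) := by gcongr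
        _ = _ := by ring
    have e3 : X ^ (1 + ε) = (X ^ (1 + ε / 2) * X ^ (ε / 4)) * X ^ (ε / 4) := by
      rw [← Real.rpow_add hX, ← Real.rpow_add hX]
      congr 1
      ring
    have e4 : 1 ≤ X ^ (1 + ε / 2) * X ^ (ε / 4) := by
      rw [← Real.rpow_add hX]
      exact Real.one_le_rpow hX1 (by linarith)
    rw [e3]
    nlinarith
  obtain ⟨z', hzz', hfl, hgen⟩ := generic z H hz0.le
  have hz'1 : z' ≤ z + 1 := by
    have h2 := Nat.lt_floor_add_one z'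
    rw [hfl] at h2
    have h3 := Nat.floor_le hz0.le
    linarith
  have hSF : SF muR z' = SF muR z := by
    unfold SF
    rw [hfl]
  -- the number of steps
  set J : ℕ := ⌊(z' - X) / H⌋₊ with hJ
  have hq0 : 0 ≤ (z' - X) / H := div_nonneg (by linarith) hH.le
  have hJ1 : (J : ℝ) * H ≤ z' - X := by
    have := Nat.floor_le hq0
    rwa [← hJ, le_div_iff₀ hH] at this
  have hJ2 : z' - X < ((J : ℝ) + 1) * H := by
    have := Nat.lt_floor_add_one ((z' - X) / H)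
    rwa [← hJ, div_lt_iff₀ hH] at this
  set w : ℝ := z' - J * H with hw
  have hwX : X ≤ w := by rw [hw]; linarith
  have hw2 : w ≤ 2 * X := by rw [hw]; nlinarith
  -- the bound at `w`
  have hSw : |SF muR w| ≤ c / 2 * z ^ β := by
    refine (hC' w (by linarith)).trans ?_
    have e1 : w ^ (σ0 + ε / 16) ≤ 4 * X ^ (σ0 + ε / 16) := by
      calc w ^ (σ0 + ε / 16) ≤ (2 * X) ^ (σ0 + ε / 16) := Real.rpow_le_rpow (by linarith) hw2 (by linarith)
        _ = 2 ^ (σ0 + ε / 16) * X ^ (σ0 + ε / 16) := Real.mul_rpow (by norm_num) hX.le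
        _ ≤ 2 ^ (2:ℝ) * X ^ (σ0 + ε / 16) := by
            gcongr
            · norm_num
            · linarith
        _ = _ := by norm_num
    have e2 : X ^ (σ0 + ε / 16) * X ^ (ε / 8) ≤ z ^ β := by
      calc X ^ (σ0 + ε / 16) * X ^ (ε / 8) = X ^ (σ0 + ε / 16 + ε / 8) := (Real.rpow_add hX _ _).symm
        _ ≤ X ^ ((1 + ε / 2) * β) := Real.rpow_le_rpow_of_exponent_le hX1 (by nlinarith)
        _ = (X ^ (1 + ε / 2)) ^ β := Real.rpow_mul hX.le _ _
        _ ≤ z ^ β := Real.rpow_le_rpow (by positivity) hz.1 (by linarith)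
    have e3 : C ≤ c / 8 * X ^ (ε / 8) := by
      rw [div_le_iff₀ hc] at g4
      linarith
    calc C * w ^ (σ0 + ε / 16) ≤ (c / 8 * X ^ (ε / 8)) * (4 * X ^ (σ0 + ε / 16)) :=
          mul_le_mul e3 e1 (Real.rpow_nonneg (by linarith) _) (by positivity)
      _ = c / 2 * (X ^ (σ0 + ε / 16) * X ^ (ε / 8)) := by ring
      _ ≤ _ := by gcongr
  -- telescoping
  have htel : ∑ j ∈ Finset.range J, (SF muR (z' - j * H) - SF muR (z' - (j + 1 : ℕ) * H)) =
      SF muR z' - SF muR w := by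
    rw [Finset.sum_range_sub' (fun j : ℕ => SF muR (z' - (j : ℝ) * H))]
    simp [hw]
  have hsabs : |s| = 1 := by rcases hs with h | h <;> rw [h] <;> simp
  have hlow : c / 2 * z ^ β ≤ s * (SF muR z' - SF muR w) := by
    have e1 : c * z ^ β ≤ s * SF muR z := hzc
    have e2 : -(c / 2 * z ^ β) ≤ -(s * SF muR w) := by
      have : s * SF muR w ≤ |s * SF muR w| := le_abs_self _
      rw [abs_mul, hsabs, one_mul] at this
      linarith
    rw [mul_sub, hSF]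
    linarith
  by_contra hcon
  push Not at hcon
  set B : ℝ := H * X ^ (σ0 - 1 - ε) with hB
  have hBj : ∀ j ∈ Finset.range J, s * (SF muR (z' - j * H) - SF muR (z' - (j + 1 : ℕ) * H)) ≤ B := by
    intro j hj
    rw [Finset.mem_range] at hj
    have hj1 : ((j : ℝ) + 1) * H ≤ J * H := by
      refine mul_le_mul_of_nonneg_right ?_ hH.le
      exact_mod_cast hj
    have hj0 : (0:ℝ) ≤ j * H := by positivity
    have h2 := hcon (z' - j * H - H / 2) ⟨by linarith, by linarith⟩ (fun n => by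
      rw [sub_add_cancel]
      exact hgen j n) (by linarith)
    refine le_trans (le_of_eq ?_) h2.le
    unfold DF
    congr 3
    · ring
    · push_cast
      ring
  have hsum : s * (SF muR z' - SF muR w) ≤ J * B := by
    rw [← htel, Finset.mul_sum]
    refine (Finset.sum_le_sum hBj).trans ?_
    rw [Finset.sum_const, Finset.card_range, nsmul_eq_mul]
  have hJB : (J : ℝ) * B ≤ 2 * z * X ^ (σ0 - 1 - ε) := by
    have hP : 0 < X ^ (σ0 - 1 - ε) := Real.rpow_pos_of_pos hX _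
    calc (J : ℝ) * B = (J * H) * X ^ (σ0 - 1 - ε) := by rw [hB]; ring
      _ ≤ (2 * z) * X ^ (σ0 - 1 - ε) := by
          refine mul_le_mul_of_nonneg_right ?_ hP.le
          linarith
  have hfin : c / 2 * z ^ β ≤ 2 * z * X ^ (σ0 - 1 - ε) := hlow.trans (hsum.trans hJB)
  have e5 : z ^ β = z * z ^ (β - 1) := by
    rw [Real.rpow_sub_one hz0.ne']
    field_simp
  rw [e5] at hfin
  have e6 : c / 4 * z ^ (β - 1) ≤ X ^ (σ0 - 1 - ε) := by
    have h3 : z * (c / 4 * z ^ (β - 1)) ≤ z * X ^ (σ0 - 1 - ε) := by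
      have : c / 2 * (z * z ^ (β - 1)) = 2 * (z * (c / 4 * z ^ (β - 1))) := by ring
      rw [this] at hfin
      linarith
    exact le_of_mul_le_mul_left h3 hz0
  have e7 : X ^ (σ0 - 1 - 9 * ε / 16) ≤ z ^ (β - 1) := by
    calc X ^ (σ0 - 1 - 9 * ε / 16) ≤ X ^ ((1 + ε) * (β - 1)) :=
          Real.rpow_le_rpow_of_exponent_le hX1 (by nlinarith)
      _ = (X ^ (1 + ε)) ^ (β - 1) := Real.rpow_mul hX.le _ _
      _ ≤ z ^ (β - 1) := Real.rpow_le_rpow_of_nonpos hz0 (by linarith) (by linarith)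
  have e8 : X ^ (σ0 - 1 - 9 * ε / 16) = X ^ (7 * ε / 16) * X ^ (σ0 - 1 - ε) := by
    rw [← Real.rpow_add hX]
    congr 1
    ring
  have hP : 0 < X ^ (σ0 - 1 - ε) := Real.rpow_pos_of_pos hX _
  have e9 : 1 < c / 4 * X ^ (7 * ε / 16) := by
    rw [div_lt_iff₀ hc] at g5
    linarith
  have e10 : X ^ (σ0 - 1 - ε) < c / 4 * z ^ (β - 1) := by
    calc X ^ (σ0 - 1 - ε) = 1 * X ^ (σ0 - 1 - ε) := (one_mul _).symm
      _ < (c / 4 * X ^ (7 * ε / 16)) * X ^ (σ0 - 1 - ε) := mul_lt_mul_of_pos_right e9 hP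
      _ = c / 4 * X ^ (σ0 - 1 - 9 * ε / 16) := by rw [e8]; ring
      _ ≤ _ := by gcongr
  linarith

end

end Pool.Agent.R303.LW
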