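import Pool.Agent.R303.LW.A

/-! # The kernel average of the Liouville function at the exponent one half -/

open Complex MeasureTheory Filter Topology Set Metric

set_option linter.unusedSectionVars false
set_option linter.unusedVariables false
set_option autoImplicit false
set_option maxHeartbeats 4000000

namespace Pool.Agent.R303.LW

open H313.TK

noncomputable section

lemma qq_int : Integrable (fun z => |qq z|) := by
  have hi : Integrable (fun x : ℝ => 48 * Real.exp (-(2 * |x|))) := (int_exp_abs 2 (by norm_num)).const_mul 48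
  have hc := qq_cont
  exact hi.mono' (by fun_prop) (ae_of_all _ fun z => by
    rw [Real.norm_eq_abs, abs_abs]
    exact qq_abs z)

lemma qe_int (t : ℝ) : Integrable (fun z => Real.exp ((t - z) / 2) * qq z) := by
  have hi : Integrable (fun x : ℝ => (48 * Real.exp (t / 2)) * Real.exp (-(1 * |x|))) :=
    (int_exp_abs 1 (by norm_num)).const_mul _
  have hc := qq_cont
  refine hi.mono' (by fun_prop) (ae_of_all _ fun z => ?_)
  rw [norm_mul, Real.norm_eq_abs, Real.norm_eq_abs, abs_of_pos (Real.exp_pos _)]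
  have h1 := qq_abs z
  have h2 : Real.exp ((t - z) / 2) * Real.exp (-(2 * |z|)) ≤ Real.exp (t / 2) * Real.exp (-(1 * |z|)) := by
    rw [← Real.exp_add, ← Real.exp_add]
    refine Real.exp_le_exp.2 ?_
    have := neg_abs_le z
    linarith [abs_nonneg z]
  calc Real.exp ((t - z) / 2) * |qq z| ≤ Real.exp ((t - z) / 2) * (48 * Real.exp (-(2 * |z|))) := by gcongr
    _ = 48 * (Real.exp ((t - z) / 2) * Real.exp (-(2 * |z|))) := by ring
    _ ≤ 48 * (Real.exp (t / 2) * Real.exp (-(1 * |z|))) := by gcongr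
    _ = _ := by ring

lemma abs_Iic (t : ℝ) : ∫ z in Iic t, |qq z| ≤ 24 * Real.exp (2 * t) := by
  have hi : IntegrableOn (fun z : ℝ => 48 * Real.exp (2 * z)) (Iic t) :=
    (integrableOn_exp_mul_Iic (by norm_num : (0:ℝ) < 2) t).const_mul _
  have h1 : ∫ z in Iic t, |qq z| ≤ ∫ z in Iic t, 48 * Real.exp (2 * z) := by
    refine setIntegral_mono qq_int.integrableOn hi fun z => ?_
    refine (qq_abs z).trans ?_
    have := neg_abs_le z
    gcongr
    linarith
  refine h1.trans (le_of_eq ?_)
  rw [integral_const_mul, integral_exp_mul_Iic (by norm_num)]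
  ring

lemma mem_iff (t z : ℝ) (k : ℕ) : z ≤ t - Lk k ↔ k < ⌊Real.exp ((t - z) / 2)⌋₊ := by
  rw [← Nat.succ_le_iff, Nat.le_floor_iff (Real.exp_pos _).le]
  unfold Lk
  have hp : (0:ℝ) < (k : ℝ) + 1 := by positivity
  rw [Nat.succ_eq_add_one, Nat.cast_add, Nat.cast_one, ← Real.log_le_iff_le_exp hp]
  constructor <;> intro h <;> linarith

lemma sum_form (t : ℝ) : HasSum (fun k : ℕ => ∫ z in Iic (t - Lk k), qq z)
    (∫ z, (⌊Real.exp ((t - z) / 2)⌋₊ : ℝ) * qq z) := by
  set F : ℕ → ℝ → ℝ := fun k => (Iic (t - Lk k)).indicator qq with hF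
  have hq : Integrable qq := by
    have hc := qq_cont
    exact (integrable_norm_iff (by fun_prop)).1 (by simpa [Real.norm_eq_abs] using qq_int)
  have h1 : ∀ k, Integrable (F k) := fun k => hq.indicator measurableSet_Iic
  have h2 : Summable fun k => ∫ z, ‖F k z‖ := by
    refine Summable.of_nonneg_of_le (fun k => integral_nonneg fun z => norm_nonneg _) (fun k => ?_)
      (((zsum 2 (by norm_num)).mul_left (24 * Real.exp (2 * t))))
    have e1 : ∫ z, ‖F k z‖ = ∫ z in Iic (t - Lk k), |qq z| := by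
      rw [← integral_indicator measurableSet_Iic]
      refine integral_congr_ae (ae_of_all _ fun z => ?_)
      simp only [hF]
      rw [norm_indicator_eq_indicator_norm]
      rfl
    rw [e1]
    refine (abs_Iic _).trans (le_of_eq ?_)
    rw [mul_assoc, ← exp_aLk, ← Real.exp_add]
    congr 2
    ring
  have h3 := hasSum_integral_of_summable_integral_norm h1 h2
  have e2 : (fun k => ∫ z, F k z) = fun k : ℕ => ∫ z in Iic (t - Lk k), qq z := by
    funext k
    exact integral_indicator measurableSet_Iic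
  rw [e2] at h3
  have e3 : (fun z => (⌊Real.exp ((t - z) / 2)⌋₊ : ℝ) * qq z) = fun z => ∑' k, F k z := by
    funext z
    symm
    rw [tsum_eq_sum (s := Finset.range ⌊Real.exp ((t - z) / 2)⌋₊)]
    · rw [Finset.sum_congr rfl (g := fun _ => qq z)]
      · rw [Finset.sum_const, Finset.card_range, nsmul_eq_mul]
      · intro k hk
        rw [Finset.mem_range, ← mem_iff] at hk
        exact indicator_of_mem (show z ∈ Iic (t - Lk k) from hk) qq
    · intro k hk
      rw [Finset.mem_range, ← mem_iff] at hk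
      exact indicator_of_notMem (show z ∉ Iic (t - Lk k) from hk) qq
  rw [e3]
  exact h3

theorem core_half : ∃ c : ℝ, 0 < c ∧ ∀ᶠ t : ℝ in atTop,
    c * Real.exp (1 / 2 * t) ≤ ∫ v : ℝ, |ll (t - v)| * kp v := by
  set κ : ℝ := ∫ z, Real.exp (-z / 2) * qq z with hκ
  have hκ0 : κ ≠ 0 := by
    intro h
    refine qh_ne (1 / 2) (by norm_num) (by norm_num) ?_
    have : qh (1 / 2) = ((κ : ℝ) : ℂ) := by
      rw [hκ, ← integral_complex_ofReal]
      unfold qh
      refine integral_congr_ae (ae_of_all _ fun z => ?_)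
      simp only
      push_cast
      congr 2
      ring
    rw [this, h]
    simp
  set C : ℝ := ∫ z, |qq z| with hC
  have hC0 : 0 ≤ C := integral_nonneg fun z => abs_nonneg _
  have hDq : DK (Sg qc) := by
    rw [← kc_eq]
    exact kc_DK
  have avg : ∀ t : ℝ, |κ| * Real.exp (1 / 2 * t) - C ≤ ∫ v : ℝ, |ll (t - v)| * kp v := by
    intro t
    have e1 : ∫ v : ℝ, ll (t - v) * kp v = ∫ z, (⌊Real.exp ((t - z) / 2)⌋₊ : ℝ) * qq z := by
      have h1 := ident qc_QQ hDq t
      have k2 : ∫ v : ℝ, (ll (t - v) : ℂ) * Sg qc v = ((∫ v : ℝ, ll (t - v) * kp v : ℝ) : ℂ) := by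
        rw [← kc_eq, ← integral_complex_ofReal]
        refine integral_congr_ae (ae_of_all _ fun v => ?_)
        simp [kc]
      rw [k2] at h1
      have h2 : (fun k : ℕ => Gg qc (t - Lk k)) = fun k : ℕ => ((∫ z in Iic (t - Lk k), qq z : ℝ) : ℂ) := by
        funext k
        unfold Gg qc
        exact integral_complex_ofReal
      rw [h2] at h1
      have h3 : HasSum (fun k : ℕ => ∫ z in Iic (t - Lk k), qq z) (∫ v : ℝ, ll (t - v) * kp v) := by
        exact_mod_cast h1
      exact h3.unique (sum_form t)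
    have i1 := qe_int t
    have hc := qq_cont
    have i2 : Integrable (fun z => (⌊Real.exp ((t - z) / 2)⌋₊ : ℝ) * qq z) := by
      refine i1.norm.mono' ?_ (ae_of_all _ fun z => ?_)
      · have hm : Measurable (fun z : ℝ => (⌊Real.exp ((t - z) / 2)⌋₊ : ℝ)) :=
          measurable_from_nat.comp (Nat.measurable_floor.comp (by fun_prop))
        exact (hm.mul hc.measurable).aestronglyMeasurable
      · rw [norm_mul, norm_mul, Real.norm_of_nonneg (Nat.cast_nonneg _), Real.norm_of_nonneg (Real.exp_pos _).le]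
        exact mul_le_mul_of_nonneg_right (Nat.floor_le (Real.exp_pos _).le) (norm_nonneg _)
    have e2 : |(∫ z, (⌊Real.exp ((t - z) / 2)⌋₊ : ℝ) * qq z) - ∫ z, Real.exp ((t - z) / 2) * qq z| ≤ C := by
      rw [← integral_sub i2 i1, ← Real.norm_eq_abs]
      refine norm_integral_le_of_norm_le qq_int (ae_of_all _ fun z => ?_)
      rw [← sub_mul, norm_mul, Real.norm_eq_abs, Real.norm_eq_abs]
      have h1 := Nat.floor_le (Real.exp_pos ((t - z) / 2)).le
      have h2 := Nat.lt_floor_add_one (Real.exp ((t - z) / 2))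
      have h3 : |(⌊Real.exp ((t - z) / 2)⌋₊ : ℝ) - Real.exp ((t - z) / 2)| ≤ 1 := by
        rw [abs_le]
        constructor <;> linarith
      calc _ ≤ 1 * |qq z| := mul_le_mul_of_nonneg_right h3 (abs_nonneg _)
        _ = _ := one_mul _
    have e3 : ∫ z, Real.exp ((t - z) / 2) * qq z = Real.exp (1 / 2 * t) * κ := by
      rw [hκ, ← integral_const_mul]
      refine integral_congr_ae (ae_of_all _ fun z => ?_)
      simp only
      rw [← mul_assoc, ← Real.exp_add]
      congr 2
      ring
    rw [e3, ← e1] at e2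
    have e4 : |∫ v : ℝ, ll (t - v) * kp v| ≤ ∫ v : ℝ, |ll (t - v)| * kp v := by
      refine (abs_integral_le_integral_abs).trans (le_of_eq ?_)
      refine integral_congr_ae (ae_of_all _ fun v => ?_)
      simp only
      rw [abs_mul, abs_of_nonneg (kp_nonneg v)]
    have e5 : |κ| * Real.exp (1 / 2 * t) = |Real.exp (1 / 2 * t) * κ| := by
      rw [abs_mul, abs_of_pos (Real.exp_pos _), mul_comm]
    rw [e5]
    have e6 := abs_sub_abs_le_abs_sub (Real.exp (1 / 2 * t) * κ) (∫ v : ℝ, ll (t - v) * kp v)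
    rw [abs_sub_comm] at e6
    linarith
  have hk : 0 < |κ| := abs_pos.2 hκ0
  refine ⟨|κ| / 2, by positivity, ?_⟩
  have h7 : Tendsto (fun t : ℝ => Real.exp (1 / 2 * t)) atTop atTop :=
    Real.tendsto_exp_atTop.comp (Tendsto.const_mul_atTop (by norm_num) tendsto_id)
  filter_upwards [h7.eventually_ge_atTop (C / (|κ| / 2))] with t ht
  rw [div_le_iff₀ (by positivity)] at ht
  have := avg t
  linarith

end

end Pool.Agent.R303.LW
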