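import Pool.Agent.R303.LW.Hf

/-! # Windows for absolute values -/

open MeasureTheory Filter Topology Set Metric

set_option linter.unusedSectionVars false
set_option linter.unusedVariables false
set_option autoImplicit false
set_option maxHeartbeats 4000000

namespace Pool.Agent.R303.LW

open H313.TK

noncomputable section

/-- restriction to the window, absolute values -/
theorem win_abs {f : ℝ → ℝ} (hf : Measurable f) (hb : ∀ u, |f u| ≤ Real.exp u) (β : ℝ) (hβ : 1 / 2 ≤ β)
    (hcore : ∃ c : ℝ, 0 < c ∧ ∀ᶠ t : ℝ in atTop, c * Real.exp (β * t) ≤ ∫ v : ℝ, |f (t - v)| * kp v) :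
    ∃ c : ℝ, 0 < c ∧ ∀ᶠ l : ℝ in atTop, c * Real.exp (β * l) ≤ ∫ u in Icc l (l + Real.log l), |f u| := by
  obtain ⟨c, hc, hev⟩ := hcore
  have hC0 := C0_nonneg
  refine ⟨c / 2 / (4 * C0 + 1), by positivity, ?_⟩
  have hD1 := D1_nonneg
  set B : ℝ := 8 * C0 * D1 with hB
  have hB0 : 0 ≤ B := by positivity
  have hlim : ∀ᶠ l : ℝ in atTop, B * (l * Real.exp (-(l / 4))) ≤ c / 2 := by
    have h1 : Tendsto (fun l : ℝ => l * Real.exp (-(l / 4))) atTop (𝓝 0) := by
      have h2 : Tendsto (fun l : ℝ => l / 4) atTop atTop := tendsto_id.atTop_div_const (by norm_num)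
      have h3 := (Real.tendsto_pow_mul_exp_neg_atTop_nhds_zero 1).comp h2
      have h4 : Tendsto (fun l : ℝ => 4 * ((l / 4) ^ 1 * Real.exp (-(l / 4)))) atTop (𝓝 (4 * 0)) := h3.const_mul 4
      rw [mul_zero] at h4
      refine h4.congr fun l => ?_
      ring
    have h5 : Tendsto (fun l : ℝ => B * (l * Real.exp (-(l / 4)))) atTop (𝓝 (B * 0)) := h1.const_mul B
    rw [mul_zero] at h5
    exact h5.eventually (ge_mem_nhds (by positivity))
  filter_upwards [ct_tendsto.eventually hev, hlim, eventually_ge_atTop (1:ℝ)] with l h1 h3 h4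
  set a : ℝ := Real.log l / 2 with ha
  have hl0 : 0 < l := by linarith
  have ha0 : 0 ≤ a := by rw [ha]; have := Real.log_nonneg h4; positivity
  have k2 := tail (fun u => |f u|) (by fun_prop) (fun u => abs_nonneg _) hb (ct l) a ha0
  have k3 : Real.exp (ct l + a) * W (-a) ≤ l * Real.exp (l / 4) := by
    have e1 : Real.exp (ct l + a) = l * Real.exp l := by
      have : ct l + a = Real.log l + l := by unfold ct; rw [ha]; ring
      rw [this, Real.exp_add, Real.exp_log hl0]
    have e2 : W (-a) ≤ Real.exp (-(3 / 4 * l)) := by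
      unfold W
      refine Real.exp_le_exp.2 ?_
      rw [max_eq_right (by linarith), abs_neg, abs_of_nonneg ha0]
      have e3 : 2 * a = Real.log l := by rw [ha]; ring
      rw [e3, Real.exp_log hl0]
      have := Real.pi_gt_three
      nlinarith
    rw [e1]
    calc l * Real.exp l * W (-a) ≤ l * Real.exp l * Real.exp (-(3 / 4 * l)) :=
          mul_le_mul_of_nonneg_left e2 (by positivity)
      _ = l * (Real.exp l * Real.exp (-(3 / 4 * l))) := by ring
      _ = _ := by rw [← Real.exp_add]; congr 2; ring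
  have k4 : B * (Real.exp (ct l + a) * W (-a)) ≤ c / 2 * Real.exp (β * ct l) := by
    have e1 : B * (Real.exp (ct l + a) * W (-a)) ≤ B * (l * Real.exp (l / 4)) := mul_le_mul_of_nonneg_left k3 hB0
    have e2 : B * (l * Real.exp (l / 4)) = (B * (l * Real.exp (-(l / 4)))) * Real.exp (l / 2) := by
      have : Real.exp (l / 4) = Real.exp (-(l / 4)) * Real.exp (l / 2) := by
        rw [← Real.exp_add]; congr 1; ring
      rw [this]
      ring
    have e3 : Real.exp (l / 2) ≤ Real.exp (β * ct l) := by
      refine Real.exp_le_exp.2 ?_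
      have : l ≤ ct l := by unfold ct; linarith
      nlinarith
    calc B * (Real.exp (ct l + a) * W (-a)) ≤ (B * (l * Real.exp (-(l / 4)))) * Real.exp (l / 2) := by rw [← e2]; exact e1
      _ ≤ c / 2 * Real.exp (l / 2) := mul_le_mul_of_nonneg_right h3 (Real.exp_pos _).le
      _ ≤ _ := mul_le_mul_of_nonneg_left e3 (by positivity)
  have k5 : c / 2 * Real.exp (β * ct l) ≤ ∫ v in Icc (-a) a, |f (ct l - v)| * kp v := by linarith
  have hi1 : IntegrableOn (fun v => |f (ct l - v)|) (Icc (-a) a) :=
    ((by fun_prop : Continuous fun v => Real.exp (ct l - v)).integrableOn_Icc (a := -a) (b := a)).mono'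
      (by fun_prop : Measurable fun v => |f (ct l - v)|).aestronglyMeasurable
      (ae_of_all _ fun v => by rw [Real.norm_eq_abs, abs_abs]; exact hb _)
  have k6 : ∫ v in Icc (-a) a, |f (ct l - v)| * kp v ≤ (4 * C0 + 1) * ∫ v in Icc (-a) a, |f (ct l - v)| := by
    rw [← integral_const_mul]
    refine setIntegral_mono (avg_int (fun u => |f u|) (by fun_prop) (fun u => by rw [abs_abs]; exact hb u)
      (ct l)).integrableOn (hi1.const_mul _) fun v => ?_
    have h5 : kp v ≤ 4 * C0 + 1 := by
      have h6 := kp_bd v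
      rw [Complex.norm_real, Real.norm_eq_abs, abs_of_nonneg (kp_nonneg v)] at h6
      have h7 : Real.exp (-(3 * |v|)) ≤ 1 := Real.exp_le_one_iff.2 (by linarith [abs_nonneg v])
      have h8 : C0 * 4 * Real.exp (-(3 * |v|)) ≤ C0 * 4 * 1 := mul_le_mul_of_nonneg_left h7 (by positivity)
      linarith
    show |f (ct l - v)| * kp v ≤ (4 * C0 + 1) * |f (ct l - v)|
    rw [mul_comm (4 * C0 + 1)]
    exact mul_le_mul_of_nonneg_left h5 (abs_nonneg _)
  have k7 : ∫ v in Icc (-a) a, |f (ct l - v)| = ∫ u in Icc l (l + Real.log l), |f u| := by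
    rw [integral_Icc_eq_integral_Ioc, integral_Icc_eq_integral_Ioc,
      ← intervalIntegral.integral_of_le (by linarith), ← intervalIntegral.integral_of_le (by
        have := Real.log_nonneg h4; linarith),
      intervalIntegral.integral_comp_sub_left (fun u => |f u|)]
    congr 1
    · unfold ct; rw [ha]; ring
    · unfold ct; rw [ha]; ring
  rw [← k7, div_mul_eq_mul_div, div_le_iff₀ (by positivity), mul_comm (∫ v in Icc (-a) a, |f (ct l - v)|)]
  refine le_trans ?_ (k5.trans k6)
  refine mul_le_mul_of_nonneg_left (Real.exp_le_exp.2 ?_) (by positivity)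
  have : l ≤ ct l := by unfold ct; linarith
  nlinarith

/-- the same in the original variable -/
theorem win_y {f g : ℝ → ℝ} (hfg : ∀ u, f u = g (Real.exp u)) (hg : Measurable g)
    (hgb : ∀ x, 0 ≤ x → |g x| ≤ x) {β : ℝ}
    (h : ∃ c : ℝ, 0 < c ∧ ∀ᶠ l : ℝ in atTop, c * Real.exp (β * l) ≤ ∫ u in Icc l (l + Real.log l), |f u|) :
    ∃ c : ℝ, 0 < c ∧ ∀ᶠ z : ℝ in atTop, c * z ^ (1 + β) ≤ ∫ y in z..(z * Real.log z), |g y| := by
  obtain ⟨c, hc, hev⟩ := h
  refine ⟨c, hc, ?_⟩
  filter_upwards [Real.tendsto_log_atTop.eventually hev, eventually_ge_atTop (Real.exp 1)] with z h1 h2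
  have hz : 0 < z := (Real.exp_pos 1).trans_le h2
  have hl : 1 ≤ Real.log z := (Real.le_log_iff_exp_le hz).2 h2
  set l := Real.log z with hldef
  have hll : 0 ≤ Real.log l := Real.log_nonneg hl
  have hel : Real.exp l = z := Real.exp_log hz
  have himg : Real.exp '' Icc l (l + Real.log l) = Icc z (z * l) := by
    ext y
    constructor
    · rintro ⟨u, hu, rfl⟩
      refine ⟨?_, ?_⟩
      · rw [← hel]; exact Real.exp_le_exp.2 hu.1
      · have := Real.exp_le_exp.2 hu.2
        rwa [Real.exp_add, hel, Real.exp_log (by linarith)] at this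
    · rintro ⟨h3, h4⟩
      have hy : 0 < y := hz.trans_le h3
      refine ⟨Real.log y, ⟨?_, ?_⟩, Real.exp_log hy⟩
      · rw [Real.le_log_iff_exp_le hy, hel]; exact h3
      · rw [Real.log_le_iff_le_exp hy, Real.exp_add, hel, Real.exp_log (by linarith)]
        exact h4
  have hch := integral_image_eq_integral_abs_deriv_smul (f := Real.exp) (f' := Real.exp)
    (measurableSet_Icc (a := l) (b := l + Real.log l)) (fun x _ => (Real.hasDerivAt_exp x).hasDerivWithinAt)
    (Real.exp_injective.injOn) (fun y => |g y|)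
  rw [himg] at hch
  have hzl : z ≤ z * l := le_mul_of_one_le_right hz.le hl
  rw [intervalIntegral.integral_of_le hzl, ← integral_Icc_eq_integral_Ioc, hch]
  have e1 : z ^ (1 + β) = z * Real.exp (β * l) := by
    rw [Real.rpow_add hz, Real.rpow_one, Real.rpow_def_of_pos hz, ← hldef, mul_comm l β]
  rw [e1]
  have hgm : Measurable fun u : ℝ => |g (Real.exp u)| := by fun_prop
  have hi : ∀ u, |g (Real.exp u)| ≤ Real.exp u := fun u => hgb _ (Real.exp_pos u).le
  calc c * (z * Real.exp (β * l)) = z * (c * Real.exp (β * l)) := by ring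
    _ ≤ z * ∫ u in Icc l (l + Real.log l), |f u| := mul_le_mul_of_nonneg_left h1 hz.le
    _ = ∫ u in Icc l (l + Real.log l), z * |f u| := (integral_const_mul _ _).symm
    _ ≤ ∫ u in Icc l (l + Real.log l), |Real.exp u| • |g (Real.exp u)| := by
        refine setIntegral_mono_on ?_ ?_ measurableSet_Icc fun u hu => ?_
        · refine ((by fun_prop : Continuous fun u => z * Real.exp u).integrableOn_Icc).mono' ?_
            (ae_of_all _ fun u => ?_)
          · have : (fun u => z * |f u|) = fun u => z * |g (Real.exp u)| := by funext u; rw [hfg]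
            rw [this]
            exact (hgm.const_mul z).aestronglyMeasurable
          · rw [hfg, norm_mul, Real.norm_of_nonneg hz.le, Real.norm_eq_abs, abs_abs]
            exact mul_le_mul_of_nonneg_left (hi u) hz.le
        · refine ((by fun_prop : Continuous fun u => Real.exp u * Real.exp u).integrableOn_Icc).mono' ?_
            (ae_of_all _ fun u => ?_)
          · exact ((by fun_prop : Measurable fun u : ℝ => |Real.exp u|).smul hgm).aestronglyMeasurable
          · rw [norm_smul, Real.norm_eq_abs, Real.norm_eq_abs, abs_abs, abs_abs, abs_of_pos (Real.exp_pos u)]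
            exact mul_le_mul_of_nonneg_left (hi u) (Real.exp_pos u).le
        · rw [hfg, smul_eq_mul, abs_of_pos (Real.exp_pos u)]
          refine mul_le_mul_of_nonneg_right ?_ (abs_nonneg _)
          rw [← hel]
          exact Real.exp_le_exp.2 hu.1

end

end Pool.Agent.R303.LW
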