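import Pool.Agent.R303.LW.I
import Pool.Agent.R303.SW.Lsh

/-! # The chain argument for integrals -/

open MeasureTheory Filter Topology Set Metric
open Pool.Agent.W190 (SF)
open Pool.Agent.R303.SW

set_option autoImplicit false
set_option maxHeartbeats 4000000

namespace Pool.Agent.R303.LW

noncomputable section

/-- telescoping along steps of length `H` -/
lemma tele (a : ℕ → ℝ) {X Z H S y : ℝ} (hH : 0 < H) (hXy : X ≤ y) (hyZ : y ≤ Z)
    (hS : ∀ w, X ≤ w → w ≤ X + H → |SF a w| ≤ S) {J : ℕ} (hJ : (Z - X) / H ≤ J) :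
    |SF a y| ≤ (∑ j ∈ Finset.range J, (Icc X Z).indicator (fun x => |DG a H x|) (y - ((j : ℝ) + 1) * H)) + S := by
  set m : ℕ := ⌊(y - X) / H⌋₊ with hm
  have hq0 : 0 ≤ (y - X) / H := div_nonneg (by linarith) hH.le
  have hm1 : (m : ℝ) * H ≤ y - X := by
    have := Nat.floor_le hq0
    rwa [← hm, le_div_iff₀ hH] at this
  have hm2 : y - X < ((m : ℝ) + 1) * H := by
    have := Nat.lt_floor_add_one ((y - X) / H)
    rwa [← hm, div_lt_iff₀ hH] at this
  have hmJ : m ≤ J := by
    have h1 : (m : ℝ) ≤ J := by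
      have h2 : (m : ℝ) ≤ (y - X) / H := Nat.floor_le hq0
      have h3 : (y - X) / H ≤ (Z - X) / H := by gcongr
      linarith
    exact_mod_cast h1
  have htel : ∑ j ∈ Finset.range m, (SF a (y - j * H) - SF a (y - (j + 1 : ℕ) * H)) =
      SF a y - SF a (y - m * H) := by
    rw [Finset.sum_range_sub' (fun j : ℕ => SF a (y - (j : ℝ) * H))]
    simp
  have hw := hS (y - m * H) (by linarith) (by nlinarith)
  have h1 : |SF a y - SF a (y - m * H)| ≤
      ∑ j ∈ Finset.range m, (Icc X Z).indicator (fun x => |DG a H x|) (y - ((j : ℝ) + 1) * H) := by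
    rw [← htel]
    refine (Finset.abs_sum_le_sum_abs _ _).trans (Finset.sum_le_sum fun j hj => ?_)
    rw [Finset.mem_range] at hj
    have hj1 : ((j : ℝ) + 1) * H ≤ m * H := by
      refine mul_le_mul_of_nonneg_right ?_ hH.le
      exact_mod_cast hj
    have hj0 : (0:ℝ) ≤ ((j : ℝ) + 1) * H := by positivity
    rw [indicator_of_mem (show y - ((j : ℝ) + 1) * H ∈ Icc X Z from ⟨by linarith, by linarith⟩)]
    unfold DG
    refine le_of_eq ?_
    congr 3
    · ring
    · push_cast
      ring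
  have h2 : ∑ j ∈ Finset.range m, (Icc X Z).indicator (fun x => |DG a H x|) (y - ((j : ℝ) + 1) * H) ≤
      ∑ j ∈ Finset.range J, (Icc X Z).indicator (fun x => |DG a H x|) (y - ((j : ℝ) + 1) * H) := by
    refine Finset.sum_le_sum_of_subset_of_nonneg (Finset.range_mono hmJ) fun j _ _ => ?_
    exact indicator_nonneg (fun x _ => abs_nonneg _) _
  have h3 : |SF a y| ≤ |SF a y - SF a (y - m * H)| + |SF a (y - m * H)| := by
    have := abs_add_le (SF a y - SF a (y - m * H)) (SF a (y - m * H))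
    rwa [sub_add_cancel] at this
  linarith

lemma tele_int (a : ℕ → ℝ) {X z Z H S : ℝ} (hH : 0 < H) (hXz : X ≤ z) (hzZ : z ≤ Z)
    (hS : ∀ w, X ≤ w → w ≤ X + H → |SF a w| ≤ S) {J : ℕ} (hJ : (Z - X) / H ≤ J) :
    ∫ y in z..Z, |SF a y| ≤ J * (∫ x in X..Z, |DG a H x|) + (Z - z) * S := by
  set G : ℝ → ℝ := (Icc X Z).indicator (fun x => |DG a H x|) with hG
  have hXZ : X ≤ Z := hXz.trans hzZ
  have hGI : Integrable G := by
    rw [hG, integrable_indicator_iff measurableSet_Icc, integrableOn_Icc_iff_integrableOn_Ioc,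
      ← intervalIntegrable_iff_integrableOn_Ioc_of_le hXZ]
    exact (DG_II a H X Z).abs
  have hGint : ∫ x, G x = ∫ x in X..Z, |DG a H x| := by
    rw [hG, integral_indicator measurableSet_Icc, integral_Icc_eq_integral_Ioc,
      ← intervalIntegral.integral_of_le hXZ]
  have hG0 : ∀ x, 0 ≤ G x := fun x => indicator_nonneg (fun x _ => abs_nonneg _) _
  have hii : ∀ j : ℕ, IntervalIntegrable (fun y => G (y - ((j : ℝ) + 1) * H)) volume z Z := fun j =>
    (hGI.comp_sub_right (((j : ℝ) + 1) * H)).intervalIntegrable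
  have hsumI : IntervalIntegrable (fun y => ∑ j ∈ Finset.range J, G (y - ((j : ℝ) + 1) * H)) volume z Z := by
    have := IntervalIntegrable.sum (Finset.range J) (f := fun (j : ℕ) y => G (y - ((j : ℝ) + 1) * H))
      (μ := volume) (a := z) (b := Z) (fun j _ => hii j)
    refine this.congr fun y _ => ?_
    simp [Finset.sum_apply]
  have h1 : ∫ y in z..Z, |SF a y| ≤
      ∫ y in z..Z, ((∑ j ∈ Finset.range J, G (y - ((j : ℝ) + 1) * H)) + S) := by
    refine intervalIntegral.integral_mono_on hzZ (SF_II a z Z).abs (hsumI.add (by simp)) fun y hy => ?_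
    exact tele a hH (hXz.trans hy.1) hy.2 hS hJ
  refine h1.trans ?_
  rw [intervalIntegral.integral_add hsumI (by simp), intervalIntegral.integral_const, smul_eq_mul,
    intervalIntegral.integral_finset_sum (fun j _ => hii j)]
  refine add_le_add ?_ le_rfl
  have h2 : ∀ j ∈ Finset.range J, ∫ y in z..Z, G (y - ((j : ℝ) + 1) * H) ≤ ∫ x in X..Z, |DG a H x| := by
    intro j _
    rw [intervalIntegral.integral_of_le hzZ, ← hGint, ← integral_sub_right_eq_self G (((j : ℝ) + 1) * H)]
    exact setIntegral_le_integral (hGI.comp_sub_right _) (ae_of_all _ fun y => hG0 _)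
  refine (Finset.sum_le_sum h2).trans ?_
  rw [Finset.sum_const, Finset.card_range, nsmul_eq_mul]

/-- dyadic decomposition -/
lemma dyadic (a : ℕ → ℝ) {X Z H B : ℝ} (hX : 0 < X) (hXZ : X ≤ Z) {N : ℕ} (hN : Z ≤ 2 ^ N * X)
    (h : ∀ i < N, ∫ x in (2 ^ i * X)..(2 * (2 ^ i * X)), |DG a H x| ≤ B) :
    ∫ x in X..Z, |DG a H x| ≤ N * B := by
  have h1 : ∫ x in X..Z, |DG a H x| ≤ ∫ x in X..(2 ^ N * X), |DG a H x| := by
    refine intervalIntegral.integral_mono_interval le_rfl hXZ hN (ae_of_all _ fun x => abs_nonneg _)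
      (DG_II a H _ _).abs
  have h2 := intervalIntegral.sum_integral_adjacent_intervals (μ := volume) (f := fun x => |DG a H x|)
    (a := fun i : ℕ => 2 ^ i * X) (n := N) (fun k _ => (DG_II a H _ _).abs)
  simp only [pow_zero, one_mul] at h2
  rw [← h2] at h1
  refine h1.trans ?_
  refine (Finset.sum_le_sum (g := fun _ => B) fun i hi => ?_).trans ?_
  · have := h i (Finset.mem_range.1 hi)
    rw [pow_succ, mul_comm (2 ^ i) 2, mul_assoc]
    exact this
  · rw [Finset.sum_const, Finset.card_range, nsmul_eq_mul]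

end

end Pool.Agent.R303.LW
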