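import Pool.Agent.R303.LW.K

/-! # First moments over short intervals on every long window -/

open MeasureTheory Filter Topology Set Metric
open Pool.Agent.W190 (SF rh_free)
open Pool.Agent.R303.SW

set_option autoImplicit false
set_option maxHeartbeats 4000000

namespace Pool.Agent.R303.LW

noncomputable section

theorem chain1 (a : ℕ → ℝ) {σ0 β ε C c : ℝ} (h12 : 1 / 2 ≤ σ0) (h1 : σ0 ≤ 1) (hε : 0 < ε) (hε1 : ε < 1)
    (hβ : 1 / 2 ≤ β) (hβσ : σ0 - ε / 16 < β) (hc : 0 < c)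
    (hC : ∀ y : ℝ, 1 ≤ y → |SF a y| ≤ C * y ^ (σ0 + ε / 16))
    (hlow : ∀ᶠ z : ℝ in atTop, c * z ^ (1 + β) ≤ ∫ y in z..(z * Real.log z), |SF a y|) :
    ∀ᶠ X : ℝ in atTop, ∀ H : ℝ, 0 < H → H ≤ X → ∃ Y ∈ Icc X (X ^ (1 + ε)),
      H * X ^ σ0 ≤ ∫ x in Y..(2 * Y), |DG a H x| := by
  have hC0 : 0 ≤ C := by
    have := (abs_nonneg _).trans (hC 1 le_rfl)
    simpa using this
  have t1 : ∀ᶠ X : ℝ in atTop, c * (X ^ (1 + ε / 2)) ^ (1 + β) ≤
      ∫ y in (X ^ (1 + ε / 2))..(X ^ (1 + ε / 2) * Real.log (X ^ (1 + ε / 2))), |SF a y| :=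
    (tendsto_rpow_atTop (by linarith : 0 < 1 + ε / 2)).eventually hlow
  have t2 : ∀ᶠ X : ℝ in atTop, 4 * Real.log X ≤ X ^ (ε / 32) := by
    have := (isLittleO_log_rpow_atTop (r := ε / 32) (by linarith)).bound (c := 1 / 4) (by norm_num)
    filter_upwards [this, eventually_ge_atTop (1:ℝ)] with X hX hX1
    rw [Real.norm_of_nonneg (Real.log_nonneg hX1), Real.norm_of_nonneg (by positivity)] at hX
    linarith
  have t3 : ∀ᶠ X : ℝ in atTop, (4 + 4 * C) / c < X ^ (ε / 32) :=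
    (tendsto_rpow_atTop (by linarith)).eventually_gt_atTop _
  filter_upwards [t1, t2, t3, eventually_ge_atTop (Real.exp 1)] with X g1 g2 g3 gX H hH hHX
  have hX : 0 < X := (Real.exp_pos 1).trans_le gX
  have hX1 : 1 ≤ X := by
    have := Real.add_one_le_exp (1:ℝ)
    linarith
  have hlX : 1 ≤ Real.log X := (Real.le_log_iff_exp_le hX).2 gX
  set z := X ^ (1 + ε / 2) with hz
  set T := X ^ (ε / 32) with hT
  have hT0 : 0 < T := Real.rpow_pos_of_pos hX _
  have hT1 : 1 ≤ T := Real.one_le_rpow hX1 (by linarith)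
  have hXz : X ≤ z := by
    rw [hz]
    conv_lhs => rw [← Real.rpow_one X]
    exact Real.rpow_le_rpow_of_exponent_le hX1 (by linarith)
  have hz0 : 0 < z := by linarith
  have hlz : Real.log z = (1 + ε / 2) * Real.log X := by rw [hz, Real.log_rpow hX]
  have hlz1 : 1 ≤ Real.log z := by rw [hlz]; nlinarith
  have hlzT : Real.log z ≤ T := by rw [hlz]; nlinarith
  set Z := z * Real.log z with hZ
  have hzZ : z ≤ Z := le_mul_of_one_le_right hz0.le hlz1
  have hZT : Z ≤ z * T := mul_le_mul_of_nonneg_left hlzT hz0.le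
  have hZ0 : 0 < Z := by linarith
  -- the number of dyadic blocks
  set m := ⌊X ^ ε⌋₊ with hm
  have hm1 : 1 ≤ m := by
    rw [hm, Nat.one_le_floor_iff]
    exact Real.one_le_rpow hX1 hε.le
  have hmX : (m : ℝ) ≤ X ^ ε := Nat.floor_le (by positivity)
  set N := Nat.log 2 m + 1 with hN
  have hN1 : (2:ℝ) ^ (N - 1) ≤ X ^ ε := by
    have h2 : 2 ^ Nat.log 2 m ≤ m := Nat.pow_log_le_self 2 (by omega)
    have h3 : ((2 ^ Nat.log 2 m : ℕ) : ℝ) ≤ m := by exact_mod_cast h2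
    push_cast at h3
    have h4 : N - 1 = Nat.log 2 m := by omega
    rw [h4]
    linarith
  have hN2 : X ^ ε ≤ 2 ^ N := by
    have h2 : m < 2 ^ N := Nat.lt_pow_succ_log_self (by norm_num) m
    have h3 : ((m + 1 : ℕ) : ℝ) ≤ ((2 ^ N : ℕ) : ℝ) := by exact_mod_cast h2
    push_cast at h3
    have h4 := Nat.lt_floor_add_one (X ^ ε)
    rw [← hm] at h4
    linarith
  have hNT : (N : ℝ) ≤ T := by
    have h2 : Real.log ((2:ℝ) ^ (N - 1)) ≤ Real.log (X ^ ε) := Real.log_le_log (by positivity) hN1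
    rw [Real.log_pow, Real.log_rpow hX] at h2
    have h3 : ((N - 1 : ℕ) : ℝ) = (N : ℝ) - 1 := by
      rw [Nat.cast_sub (by omega)]
      simp
    rw [h3] at h2
    have h4 := Real.log_two_gt_d9
    have h5 : (1:ℝ) ≤ N := by exact_mod_cast (by omega : 1 ≤ N)
    have h6 : ((N : ℝ) - 1) * (1 / 2) ≤ ((N : ℝ) - 1) * Real.log 2 :=
      mul_le_mul_of_nonneg_left (by linarith) (by linarith)
    have h7 : ε * Real.log X ≤ Real.log X := by nlinarith
    linarith
  by_contra hcon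
  push Not at hcon
  set B := H * X ^ σ0 with hB
  have hP : 0 < X ^ σ0 := Real.rpow_pos_of_pos hX _
  have hB0 : 0 < B := by positivity
  have hZN : Z ≤ 2 ^ N * X := by
    have h2 : z * T ≤ X ^ (1 + ε) := by
      rw [hz, hT, ← Real.rpow_add hX]
      exact Real.rpow_le_rpow_of_exponent_le hX1 (by linarith)
    have h3 : X ^ (1 + ε) = X ^ ε * X := by
      rw [add_comm, Real.rpow_add hX, Real.rpow_one]
    have h4 : X ^ ε * X ≤ 2 ^ N * X := mul_le_mul_of_nonneg_right hN2 hX.le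
    linarith
  have hdy := dyadic a (H := H) (B := B) hX (hXz.trans hzZ) hZN (fun i hi => by
    refine (hcon (2 ^ i * X) ⟨?_, ?_⟩).le
    · exact le_mul_of_one_le_left hX.le (one_le_pow₀ (by norm_num))
    · have h3 : X ^ (1 + ε) = X ^ ε * X := by
        rw [add_comm, Real.rpow_add hX, Real.rpow_one]
      rw [h3]
      refine mul_le_mul_of_nonneg_right (le_trans ?_ hN1) hX.le
      exact pow_le_pow_right₀ (by norm_num) (by omega))
  set S := 4 * C * X ^ (σ0 + ε / 16) with hS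
  have hSb : ∀ w, X ≤ w → w ≤ X + H → |SF a w| ≤ S := by
    intro w hw1 hw2
    refine (hC w (by linarith)).trans ?_
    have e1 : w ^ (σ0 + ε / 16) ≤ 4 * X ^ (σ0 + ε / 16) := by
      calc w ^ (σ0 + ε / 16) ≤ (2 * X) ^ (σ0 + ε / 16) := Real.rpow_le_rpow (by linarith) (by linarith) (by linarith)
        _ = 2 ^ (σ0 + ε / 16) * X ^ (σ0 + ε / 16) := Real.mul_rpow (by norm_num) hX.le
        _ ≤ 2 ^ (2:ℝ) * X ^ (σ0 + ε / 16) := by
            gcongr
            · norm_num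
            · linarith
        _ = _ := by norm_num
    calc C * w ^ (σ0 + ε / 16) ≤ C * (4 * X ^ (σ0 + ε / 16)) := mul_le_mul_of_nonneg_left e1 hC0
      _ = _ := by rw [hS]; ring
  set J := ⌈(Z - X) / H⌉₊ with hJ
  have htele := tele_int a hH hXz hzZ hSb (J := J) (Nat.le_ceil _)
  have hJb : (J : ℝ) * H ≤ 2 * Z := by
    have h2 : (J : ℝ) < (Z - X) / H + 1 := Nat.ceil_lt_add_one (div_nonneg (by linarith) hH.le)
    have h3 : (J : ℝ) * H ≤ ((Z - X) / H + 1) * H := mul_le_mul_of_nonneg_right h2.le hH.le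
    rw [add_mul, div_mul_cancel₀ _ hH.ne'] at h3
    linarith
  have hfin : c * z ^ (1 + β) ≤ (J : ℝ) * (N * B) + Z * S := by
    refine g1.trans (htele.trans ?_)
    have hS0 : 0 ≤ S := by positivity
    have h2 : (J : ℝ) * (∫ x in X..Z, |DG a H x|) ≤ (J : ℝ) * (N * B) :=
      mul_le_mul_of_nonneg_left hdy (Nat.cast_nonneg _)
    have h3 : (Z - z) * S ≤ Z * S := mul_le_mul_of_nonneg_right (by linarith) hS0
    linarith
  have hP2 : 0 < X ^ (σ0 + ε / 16) := Real.rpow_pos_of_pos hX _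
  have hPle : X ^ σ0 ≤ X ^ (σ0 + ε / 16) := Real.rpow_le_rpow_of_exponent_le hX1 (by linarith)
  have hfin2 : c * z ^ (1 + β) ≤ z * (T * T * ((2 + 4 * C) * X ^ (σ0 + ε / 16))) := by
    refine hfin.trans ?_
    have h2 : (J : ℝ) * (N * B) = ((J : ℝ) * H) * (N * X ^ σ0) := by rw [hB]; ring
    have h3 : ((J : ℝ) * H) * (N * X ^ σ0) ≤ (2 * (z * T)) * (T * X ^ (σ0 + ε / 16)) := by
      refine mul_le_mul (by linarith) ?_ (by positivity) (by positivity)
      exact mul_le_mul hNT hPle hP.le hT0.le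
    have h4 : Z * S ≤ (z * T) * (T * S) := by
      have hS0 : 0 ≤ S := by positivity
      refine mul_le_mul hZT ?_ hS0 (by positivity)
      exact le_mul_of_one_le_left hS0 hT1
    rw [h2]
    calc _ ≤ (2 * (z * T)) * (T * X ^ (σ0 + ε / 16)) + (z * T) * (T * S) := add_le_add h3 h4
      _ = _ := by rw [hS]; ring
  have e5 : z ^ (1 + β) = z * z ^ β := by rw [Real.rpow_add hz0, Real.rpow_one]
  rw [e5] at hfin2
  have e6 : c * z ^ β ≤ T * T * ((2 + 4 * C) * X ^ (σ0 + ε / 16)) := by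
    refine le_of_mul_le_mul_left (a := z) ?_ hz0
    calc z * (c * z ^ β) = c * (z * z ^ β) := by ring
      _ ≤ _ := hfin2
  have e7 : X ^ (σ0 + ε / 16 + 3 * (ε / 32)) ≤ z ^ β := by
    calc X ^ (σ0 + ε / 16 + 3 * (ε / 32)) ≤ X ^ ((1 + ε / 2) * β) :=
          Real.rpow_le_rpow_of_exponent_le hX1 (by nlinarith)
      _ = z ^ β := Real.rpow_mul hX.le _ _
  have e8 : X ^ (σ0 + ε / 16 + 3 * (ε / 32)) = T * T * (T * X ^ (σ0 + ε / 16)) := by
    rw [hT, ← Real.rpow_add hX, ← Real.rpow_add hX, ← Real.rpow_add hX]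
    congr 1
    ring
  have e9 : 2 + 4 * C < c * T := by
    rw [div_lt_iff₀ hc] at g3
    linarith
  have e10 : T * T * ((2 + 4 * C) * X ^ (σ0 + ε / 16)) < c * (T * T * (T * X ^ (σ0 + ε / 16))) := by
    calc T * T * ((2 + 4 * C) * X ^ (σ0 + ε / 16)) < T * T * ((c * T) * X ^ (σ0 + ε / 16)) := by gcongr
      _ = _ := by ring
  rw [← e8] at e10
  have e11 : c * X ^ (σ0 + ε / 16 + 3 * (ε / 32)) ≤ c * z ^ β := mul_le_mul_of_nonneg_left e7 hc.le
  linarith

end

end Pool.Agent.R303.LW
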